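import Pool.Agent.Helper11.BR.Defs
import Pool.Agent.Helper34.BC.Mean

/-!
# Project BR, block EVAL: the extension to boundary points

The value of a function on lists of elements at a list with boundary points is an iterated mean
over the points of the rays `t ↦ g * dg t`.
-/

open Filter Topology Finset

namespace Pool.Agent.Helper34.BR

open Pool.Agent.Helper11.BR
open Pool.Agent.Helper11.BC (dl)
open Pool.Agent.Helper34.BC (rm rm_const rm_add rm_sub rm_const_mul rm_congr rm_shift abs_rm_le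
  abs_rm_sub_le)

variable {G : Type} [Group G] [TopologicalSpace G] (Γ : R1 G)

/-! ### The iterated mean -/

/-- The iterated mean of a function on lists of frames. -/
noncomputable def ev : List (GP G) → (List G → ℝ) → ℝ
  | [], φ => φ []
  | GP.int g :: X, φ => ev X fun Z => φ (g :: Z)
  | GP.bdp g :: X, φ => rm fun t => ev X fun Z => φ (g * Γ.dg t :: Z)

variable {Γ}

theorem ev_nil (φ : List G → ℝ) : ev Γ [] φ = φ [] := rfl

theorem ev_cons_int (g : G) (X : List (GP G)) (φ : List G → ℝ) :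
    ev Γ (GP.int g :: X) φ = ev Γ X fun Z => φ (g :: Z) := rfl

theorem ev_cons_bdp (g : G) (X : List (GP G)) (φ : List G → ℝ) :
    ev Γ (GP.bdp g :: X) φ = rm fun t => ev Γ X fun Z => φ (g * Γ.dg t :: Z) := rfl

theorem ev_congr {X : List (GP G)} {φ ψ : List G → ℝ}
    (h : ∀ Z : List G, Z.length = X.length → φ Z = ψ Z) : ev Γ X φ = ev Γ X ψ := by
  induction X generalizing φ ψ with
  | nil => exact h [] rfl
  | cons x X ih =>
    cases x with
    | int g => exact ih fun Z hZ => h _ (by simp [hZ])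
    | bdp g =>
      rw [ev_cons_bdp, ev_cons_bdp]
      congr 1
      funext t
      exact ih fun Z hZ => h _ (by simp [hZ])

theorem abs_ev_le {X : List (GP G)} {φ : List G → ℝ} {B : ℝ}
    (h : ∀ Z : List G, Z.length = X.length → |φ Z| ≤ B) : |ev Γ X φ| ≤ B := by
  induction X generalizing φ with
  | nil => exact h [] rfl
  | cons x X ih =>
    cases x with
    | int g => exact ih fun Z hZ => h _ (by simp [hZ])
    | bdp g =>
      rw [ev_cons_bdp]
      exact abs_rm_le fun t => ih fun Z hZ => h _ (by simp [hZ])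

theorem ev_add {X : List (GP G)} {φ ψ : List G → ℝ} {B D : ℝ}
    (h : ∀ Z : List G, Z.length = X.length → |φ Z| ≤ B)
    (h' : ∀ Z : List G, Z.length = X.length → |ψ Z| ≤ D) :
    ev Γ X (fun Z => φ Z + ψ Z) = ev Γ X φ + ev Γ X ψ := by
  induction X generalizing φ ψ with
  | nil => rfl
  | cons x X ih =>
    cases x with
    | int g => exact ih (fun Z hZ => h _ (by simp [hZ])) (fun Z hZ => h' _ (by simp [hZ]))
    | bdp g =>
      rw [ev_cons_bdp, ev_cons_bdp, ev_cons_bdp]
      rw [← rm_add (C := B) (D := D)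
        (fun t => abs_ev_le fun Z hZ => h _ (by simp [hZ]))
        (fun t => abs_ev_le fun Z hZ => h' _ (by simp [hZ]))]
      congr 1
      funext t
      exact ih (fun Z hZ => h _ (by simp [hZ])) (fun Z hZ => h' _ (by simp [hZ]))

theorem ev_const_mul {X : List (GP G)} {φ : List G → ℝ} {B : ℝ}
    (h : ∀ Z : List G, Z.length = X.length → |φ Z| ≤ B) (c : ℝ) :
    ev Γ X (fun Z => c * φ Z) = c * ev Γ X φ := by
  induction X generalizing φ with
  | nil => rfl
  | cons x X ih =>
    cases x with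
    | int g => exact ih (fun Z hZ => h _ (by simp [hZ]))
    | bdp g =>
      rw [ev_cons_bdp, ev_cons_bdp]
      rw [← rm_const_mul (C := B) (fun t => abs_ev_le fun Z hZ => h _ (by simp [hZ]))]
      congr 1
      funext t
      exact ih (fun Z hZ => h _ (by simp [hZ]))

theorem ev_sub {X : List (GP G)} {φ ψ : List G → ℝ} {B D : ℝ}
    (h : ∀ Z : List G, Z.length = X.length → |φ Z| ≤ B)
    (h' : ∀ Z : List G, Z.length = X.length → |ψ Z| ≤ D) :
    ev Γ X (fun Z => φ Z - ψ Z) = ev Γ X φ - ev Γ X ψ := by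
  have h1 := ev_add (Γ := Γ) (ψ := fun Z => (-1 : ℝ) * ψ Z) h (D := D) (fun Z hZ => by
    rw [abs_mul, abs_neg, abs_one, one_mul]
    exact h' Z hZ)
  rw [ev_const_mul h'] at h1
  rw [sub_eq_add_neg, ← neg_one_mul, ← h1]
  refine ev_congr fun Z _ => ?_
  ring

theorem ev_zero (X : List (GP G)) : ev Γ X (fun _ => 0) = 0 := by
  have h := abs_ev_le (Γ := Γ) (X := X) (φ := fun _ => (0 : ℝ)) (B := 0) (fun Z _ => by simp)
  exact abs_eq_zero.1 (le_antisymm h (abs_nonneg _))

theorem ev_const (X : List (GP G)) (c : ℝ) : ev Γ X (fun _ => c) = c := by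
  induction X with
  | nil => rfl
  | cons x X ih =>
    cases x with
    | int g => exact ih
    | bdp g =>
      rw [ev_cons_bdp]
      simp only [ih]
      exact rm_const c

theorem ev_sum {X : List (GP G)} {κ : Type*} (s : Finset κ) {φ : κ → List G → ℝ} {B : κ → ℝ}
    (h : ∀ i ∈ s, ∀ Z : List G, Z.length = X.length → |φ i Z| ≤ B i) :
    ev Γ X (fun Z => ∑ i ∈ s, φ i Z) = ∑ i ∈ s, ev Γ X (φ i) := by
  classical
  induction s using Finset.induction_on with
  | empty => simp [ev_zero]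
  | insert a s ha ih =>
    have h1 : ∀ i ∈ s, ∀ Z : List G, Z.length = X.length → |φ i Z| ≤ B i :=
      fun i hi => h i (mem_insert_of_mem hi)
    rw [sum_insert ha, ← ih h1, ← ev_add (B := B a) (D := ∑ i ∈ s, B i)
      (h a (mem_insert_self a s))
      (fun Z hZ => (abs_sum_le_sum_abs _ _).trans (sum_le_sum fun i hi => h1 i hi Z hZ))]
    refine ev_congr fun Z _ => ?_
    rw [sum_insert ha]

/-- Faces. -/
theorem ev_eraseIdx (X : List (GP G)) (i : ℕ) (φ : List G → ℝ) :
    ev Γ X (fun Z => φ (Z.eraseIdx i)) = ev Γ (X.eraseIdx i) φ := by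
  induction X generalizing i φ with
  | nil => simp [ev_nil]
  | cons x X ih =>
    cases i with
    | zero =>
      cases x with
      | int g => simp [ev_cons_int]
      | bdp g =>
        rw [ev_cons_bdp]
        simp [rm_const]
    | succ i =>
      cases x with
      | int g =>
        rw [ev_cons_int, List.eraseIdx_cons_succ, ev_cons_int]
        simp only [List.eraseIdx_cons_succ]
        exact ih i fun Z => φ (g :: Z)
      | bdp g =>
        rw [ev_cons_bdp, List.eraseIdx_cons_succ, ev_cons_bdp]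
        simp only [List.eraseIdx_cons_succ]
        congr 1
        funext t
        exact ih i fun Z => φ (g * Γ.dg t :: Z)

/-- Translation by an element of the group. -/
theorem ev_map (h : G) (X : List (GP G)) (φ : List G → ℝ) :
    ev Γ (X.map (h • ·)) φ = ev Γ X fun Z => φ (Z.map (h * ·)) := by
  induction X generalizing φ with
  | nil => simp [ev_nil]
  | cons x X ih =>
    cases x with
    | int g =>
      rw [List.map_cons, smul_int, ev_cons_int, ih, ev_cons_int]
      simp only [List.map_cons]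
    | bdp g =>
      rw [List.map_cons, smul_bdp, ev_cons_bdp, ev_cons_bdp]
      congr 1
      funext t
      rw [ih]
      simp only [List.map_cons, mul_assoc]

/-- Frames of interior points. -/
theorem ev_map_int (W : List G) (φ : List G → ℝ) : ev Γ (W.map GP.int) φ = φ W := by
  induction W generalizing φ with
  | nil => rfl
  | cons g W ih => rw [List.map_cons, ev_cons_int, ih]

theorem ev_sub_int_le {l₁ l₂ : List (GP G)} {g h : G} {φ : List G → ℝ} {B D : ℝ}
    (hB : ∀ Z : List G, Z.length = (l₁ ++ GP.int g :: l₂).length → |φ Z| ≤ B)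
    (hD : ∀ k₁ k₂ : List G, k₁.length = l₁.length → k₂.length = l₂.length →
      |φ (k₁ ++ g :: k₂) - φ (k₁ ++ h :: k₂)| ≤ D) :
    |ev Γ (l₁ ++ GP.int g :: l₂) φ - ev Γ (l₁ ++ GP.int h :: l₂) φ| ≤ D := by
  induction l₁ generalizing φ with
  | nil =>
    rw [List.nil_append, List.nil_append, ev_cons_int, ev_cons_int, ← ev_sub (B := B) (D := B)]
    · exact abs_ev_le fun Z hZ => hD [] Z rfl hZ
    · exact fun Z hZ => hB _ (by simp [hZ])
    · exact fun Z hZ => hB _ (by simp [hZ])
  | cons x l₁ ih =>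
    cases x with
    | int g' =>
      rw [List.cons_append, List.cons_append, ev_cons_int, ev_cons_int]
      refine ih (fun Z hZ => hB _ (by simp [hZ])) fun k₁ k₂ h₁ h₂ => ?_
      exact hD (g' :: k₁) k₂ (by simp [h₁]) h₂
    | bdp g' =>
      rw [List.cons_append, List.cons_append, ev_cons_bdp, ev_cons_bdp]
      refine abs_rm_sub_le (C := B) (D := B) (fun t => ?_) (fun t => ?_) (fun t => ?_)
      · exact abs_ev_le fun Z hZ => hB _ (by simp [hZ])
      · exact abs_ev_le fun Z hZ => hB _ (by simp [hZ])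
      · refine ih (fun Z hZ => hB _ (by simp [hZ])) fun k₁ k₂ h₁ h₂ => ?_
        exact hD (g' * Γ.dg t :: k₁) k₂ (by simp [h₁]) h₂

/-! ### The rays of an end -/

theorem dg_zero : Γ.dg 0 = 1 := by
  have h := Γ.dg_add 0 0
  rw [add_zero] at h
  exact (left_eq_mul.1 h)

theorem dg_neg (t : ℝ) : Γ.dg (-t) = (Γ.dg t)⁻¹ := by
  apply eq_inv_of_mul_eq_one_left
  rw [← Γ.dg_add, neg_add_cancel, dg_zero]

theorem d_mul (h x y : G) : Γ.d (h * x) (h * y) = Γ.d x y := by
  unfold R1.d
  congr 1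
  group

theorem d_dg (s t : ℝ) : Γ.d (Γ.dg s) (Γ.dg t) = |s - t| := by
  unfold R1.d
  rw [← dg_neg, ← Γ.dg_add, Γ.rho_dg, ← abs_neg]
  congr 1
  ring

theorem rho_nonneg (g : G) : 0 ≤ Γ.rho g := by
  have h := Γ.rho_mul g g⁻¹
  rw [mul_inv_cancel, Γ.rho_one, Γ.rho_inv] at h
  linarith

theorem d_nonneg (x y : G) : 0 ≤ Γ.d x y := rho_nonneg _

/-- The mean does not depend on the element of the end. -/
theorem rm_par {g p : G} (hp : Γ.gam p = 0) {u : G → ℝ} {B D : ℝ} (hB : ∀ z, |u z| ≤ B)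
    (hD : ∀ z w, |u z - u w| ≤ D * Γ.d z w) :
    rm (fun t => u (g * p * Γ.dg t)) = rm (fun t => u (g * Γ.dg t)) := by
  have hD' : ∀ z w, |u z - u w| ≤ |D| * Γ.d z w := fun z w =>
    (hD z w).trans (mul_le_mul_of_nonneg_right (le_abs_self D) (d_nonneg _ _))
  obtain ⟨s, -, -, hs⟩ := Γ.end_scale p hp
  rw [← rm_shift (φ := fun t => u (g * p * Γ.dg t)) (C := B) (K := |D|) (fun t => hB _)
    (fun s t => by
      refine (hD' _ _).trans (le_of_eq ?_)
      rw [d_mul, d_dg]) (-s)]
  refine rm_congr (C := B) (D := B) (fun t => hB _) (fun t => hB _) ?_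
  have hlim : Tendsto (fun t : ℝ => |D| * Γ.rho (Γ.dg (-t) * p * Γ.dg (t - s))) atTop (𝓝 0) := by
    simpa using hs.const_mul |D|
  refine squeeze_zero_norm (fun t => ?_) hlim
  rw [Real.norm_eq_abs, abs_sub_comm]
  refine (hD' _ _).trans (le_of_eq ?_)
  rw [mul_assoc, d_mul, R1.d, dg_neg, sub_eq_add_neg, mul_assoc]

theorem ev_par {l₁ l₂ : List (GP G)} {g p : G} (hp : Γ.gam p = 0) {φ : List G → ℝ} {B D : ℝ}
    (hB : ∀ Z : List G, Z.length = (l₁ ++ GP.bdp g :: l₂).length → |φ Z| ≤ B)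
    (hD : ∀ (k₁ k₂ : List G) (z w : G), k₁.length = l₁.length → k₂.length = l₂.length →
      |φ (k₁ ++ z :: k₂) - φ (k₁ ++ w :: k₂)| ≤ D * Γ.d z w) :
    ev Γ (l₁ ++ GP.bdp (g * p) :: l₂) φ = ev Γ (l₁ ++ GP.bdp g :: l₂) φ := by
  induction l₁ generalizing φ with
  | nil =>
    rw [List.nil_append, List.nil_append, ev_cons_bdp, ev_cons_bdp]
    refine rm_par (u := fun z => ev Γ l₂ fun Z => φ (z :: Z)) (B := B) (D := D) hp (fun z => ?_)
      (fun z w => ?_)
    · exact abs_ev_le fun Z hZ => hB _ (by simp [hZ])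
    · show |ev Γ l₂ (fun Z => φ (z :: Z)) - ev Γ l₂ (fun Z => φ (w :: Z))| ≤ _
      rw [← ev_sub (B := B) (D := B)]
      · exact abs_ev_le fun Z hZ => hD [] Z z w rfl hZ
      · exact fun Z hZ => hB _ (by simp [hZ])
      · exact fun Z hZ => hB _ (by simp [hZ])
  | cons x l₁ ih =>
    cases x with
    | int g' =>
      rw [List.cons_append, List.cons_append, ev_cons_int, ev_cons_int]
      refine ih (fun Z hZ => hB _ (by simp [hZ])) fun k₁ k₂ z w h₁ h₂ => ?_
      exact hD (g' :: k₁) k₂ z w (by simp [h₁]) h₂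
    | bdp g' =>
      rw [List.cons_append, List.cons_append, ev_cons_bdp, ev_cons_bdp]
      congr 1
      funext t
      refine ih (fun Z hZ => hB _ (by simp [hZ])) fun k₁ k₂ z w h₁ h₂ => ?_
      exact hD (g' * Γ.dg t :: k₁) k₂ z w (by simp [h₁]) h₂

/-- The alternating sum over the faces. -/
theorem ev_dl {X : List (GP G)} {n : ℕ} (hX : X.length = n + 1) {φ : List G → ℝ} {B : ℝ}
    (hB : ∀ Z : List G, Z.length = n → |φ Z| ≤ B) :
    dl (fun Y => ev Γ Y φ) X = ev Γ X (dl φ) := by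
  have h1 : ev Γ X (dl φ) = ev Γ X fun Z =>
      ∑ i ∈ range (n + 1), (-1 : ℝ) ^ i * φ (Z.eraseIdx i) := by
    refine ev_congr fun Z hZ => ?_
    rw [dl, hZ, hX]
    rfl
  have hlen : ∀ Z : List G, Z.length = X.length → ∀ i ∈ range (n + 1),
      (Z.eraseIdx i).length = n := by
    intro Z hZ i hi
    rw [List.length_eraseIdx_of_lt (by rw [hZ, hX]; exact mem_range.1 hi), hZ, hX]
    rfl
  rw [h1, ev_sum (X := X) (range (n + 1))
    (φ := fun (i : ℕ) (Z : List G) => (-1 : ℝ) ^ i * φ (Z.eraseIdx i)) (B := fun _ => B), dl, hX]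
  · refine sum_congr rfl fun i hi => ?_
    rw [ev_const_mul (φ := fun Z => φ (Z.eraseIdx i)) (B := B)
      (fun Z hZ => hB _ (hlen Z hZ i hi)), ev_eraseIdx]
    rfl
  · intro i hi Z hZ
    rw [abs_mul, abs_pow, abs_neg, abs_one, one_pow, one_mul]
    exact hB _ (hlen Z hZ i hi)

/-- Block EVAL: the extension of the data to boundary points. -/
theorem exists_sys {Γ : R1 G} {N : ℕ} (P : PSys Γ N) :
    ∃ S : Sys Γ N, (∀ W : List G, S.fW (W.map GP.int) = P.fW W) ∧
      (∀ (s : G) (Y : List G), S.f0 s (Y.map GP.int) = P.f0 s Y) ∧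
      ∀ (X : List G) (s t : G), S.F (X.map GP.int) s t = P.F X s t := by
  refine ⟨{
    f0 := fun s Y => ev Γ Y (P.f0 s)
    fW := fun W => ev Γ W P.fW
    F := fun X s t => ev Γ X fun Z => P.F Z s t
    C := P.C
    one_le_C := P.one_le_C
    f0_bdd := fun s Y hY => abs_ev_le fun Z hZ => P.f0_bdd s Z (hZ.trans hY)
    f0_lip := ?_
    f0_lip_left := ?_
    f0_inv := ?_
    f0_bd := ?_
    F_inv := ?_
    F_add := ?_
    F_bd := ?_
    F_growth := fun X s t hX => abs_ev_le fun Z hZ => P.F_growth Z s t (hZ.trans hX)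
    F_lip := ?_
    F_same := ?_ }, fun W => ev_map_int W P.fW, fun s Y => ev_map_int Y (P.f0 s),
    fun X s t => ev_map_int X fun Z => P.F Z s t⟩
  · intro l₁ l₂ g h s hl
    refine ev_sub_int_le (fun Z hZ => P.f0_bdd s Z (hZ.trans hl)) fun k₁ k₂ h₁ h₂ => ?_
    refine P.f0_lip k₁ k₂ g h s ?_
    rw [← hl]
    simp [h₁, h₂]
  · intro s t Y hY
    rw [← ev_sub (fun Z hZ => P.f0_bdd s Z (hZ.trans hY))
      (fun Z hZ => P.f0_bdd t Z (hZ.trans hY))]
    exact abs_ev_le fun Z hZ => P.f0_lip_left s t Z (hZ.trans hY)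
  · intro g s Y
    rw [ev_map]
    refine ev_congr fun Z _ => P.f0_inv g s Z
  · intro s W hW
    rw [ev_dl (n := N + 1) hW (P.f0_bdd s)]
    exact ev_congr fun Z hZ => P.f0_bd s Z (hZ.trans hW)
  · intro g X s t
    rw [ev_map]
    exact ev_congr fun Z _ => P.F_inv g Z s t
  · intro X s t u hX
    rw [← ev_add (fun Z hZ => P.F_growth Z s t (hZ.trans hX))
      (fun Z hZ => P.F_growth Z t u (hZ.trans hX))]
    exact ev_congr fun Z hZ => P.F_add Z s t u (hZ.trans hX)
  · intro Y s t hY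
    rw [ev_dl (n := N) hY (fun Z hZ => P.F_growth Z s t hZ),
      ← ev_sub (fun Z hZ => P.f0_bdd s Z (hZ.trans hY))
      (fun Z hZ => P.f0_bdd t Z (hZ.trans hY))]
    exact ev_congr fun Z hZ => P.F_bd Z s t (hZ.trans hY)
  · intro l₁ l₂ g h s t hl
    refine ev_sub_int_le (fun Z hZ => P.F_growth Z s t (hZ.trans hl)) fun k₁ k₂ h₁ h₂ => ?_
    refine P.F_lip k₁ k₂ g h s t ?_
    rw [← hl]
    simp [h₁, h₂]
  · intro l₁ l₂ g h s t hl hgh
    have e : h = g * (g⁻¹ * h) := by group
    rw [e]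
    refine (ev_par hgh (fun Z hZ => P.F_growth Z s t (hZ.trans hl))
      (D := P.C * Γ.d s t) fun k₁ k₂ z w h₁ h₂ => ?_).symm
    refine P.F_lip k₁ k₂ z w s t ?_
    rw [← hl]
    simp [h₁, h₂]

end Pool.Agent.Helper34.BR
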