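import Pool.Agent.Helper11.BR.Defs
import Pool.Agent.Helper87.BCR.Cont
import Pool.Agent.Helper17.BR.FinC
import Pool.Agent.Helper17.BC.Gn

/-!
# Project BR, block REG: from the generic primitive to a continuous one

The primitive `ψ` is defined on generic lists.  It is smoothed by a product of translates of a
continuous density `κ` with compact support; the non generic lists are a null set.  The smoothed
cochain is a primitive of the smoothed cocycle `tens T f`, and `tens T f - f = dl (pri T f)`.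
-/

set_option autoImplicit false
set_option linter.unusedSectionVars false

open Filter Topology MeasureTheory
open scoped Pointwise

namespace Pool.Agent.Helper34.BR

open Pool.Agent.Helper11.BR
open Pool.Agent.Helper11.BC (dl)
open Pool.Agent.Helper87.BCR (LC LB Mk tens pri prism_of_dl_eq_zero tens_joint pri_map)

variable {G : Type} [Group G] [TopologicalSpace G] [IsTopologicalGroup G] [T2Space G]
  [SecondCountableTopology G] [LocallyCompactSpace G] [MeasurableSpace G] [BorelSpace G]
  (μ : Measure G) [μ.IsHaarMeasure] {κ : G → ℝ}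

/-- a continuous probability density with compact support -/
structure IsDen (κ : G → ℝ) : Prop where
  nonneg : ∀ h, 0 ≤ κ h
  cont : Continuous κ
  cs : HasCompactSupport κ
  mass : ∫ h, κ h ∂μ = 1

/-- the product of the translated densities -/
noncomputable def kp (κ : G → ℝ) {k : ℕ} (x z : Fin k → G) : ℝ := ∏ i, κ ((x i)⁻¹ * z i)

theorem kp_succ {k : ℕ} (i : Fin (k + 1)) (x z : Fin (k + 1) → G) :
    kp κ x z = κ ((x i)⁻¹ * z i) * kp κ (fun j => x (i.succAbove j))
      (fun j => z (i.succAbove j)) := by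
  unfold kp
  rw [Fin.prod_univ_succAbove _ i]

variable {μ} (hκ : IsDen μ κ)

include hκ

theorem kp_cont (k : ℕ) : Continuous fun p : (Fin k → G) × (Fin k → G) => kp κ p.1 p.2 := by
  unfold kp
  exact continuous_finsetProd _ fun i _ => hκ.cont.comp
    (((continuous_apply i).comp continuous_fst).inv.mul ((continuous_apply i).comp continuous_snd))

theorem kp_nonneg {k : ℕ} (x z : Fin k → G) : 0 ≤ kp κ x z :=
  Finset.prod_nonneg fun _ _ => hκ.nonneg _

theorem kp_supp {k : ℕ} {x z : Fin k → G} (h : kp κ x z ≠ 0) :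
    x⁻¹ * z ∈ Set.univ.pi fun _ : Fin k => tsupport κ := by
  intro i _
  have h1 := Finset.prod_ne_zero_iff.1 h i (Finset.mem_univ i)
  exact subset_tsupport κ h1

theorem den_one (x : G) : ∫ h, κ (x⁻¹ * h) ∂μ = 1 := by
  rw [integral_mul_left_eq_self (fun h => κ h) x⁻¹, hκ.mass]

theorem den_int (x : G) : Integrable (fun h => κ (x⁻¹ * h)) μ := by
  refine Continuous.integrable_of_hasCompactSupport
    (hκ.cont.comp (continuous_const.mul continuous_id)) ?_
  exact hκ.cs.comp_homeomorph (Homeomorph.mulLeft x⁻¹)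

theorem kp_int {k : ℕ} (x : Fin k → G) :
    Integrable (fun z => kp κ x z) (Measure.pi fun _ : Fin k => μ) := by
  refine Continuous.integrable_of_hasCompactSupport
    ((kp_cont hκ k).comp (continuous_const.prodMk continuous_id)) ?_
  have hS : IsCompact (Set.univ.pi fun _ : Fin k => tsupport κ) :=
    isCompact_univ_pi fun _ => hκ.cs.isCompact
  have hS' := hS.image (f := fun z : Fin k → G => x * z) (by fun_prop)
  refine HasCompactSupport.intro hS' fun z hz => ?_
  by_contra h
  exact hz ⟨x⁻¹ * z, kp_supp hκ h, by simp⟩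

/-- integrability of a bounded measurable function against the density -/
theorem kp_int' {k : ℕ} (x : Fin k → G) {Ψ : (Fin k → G) → ℝ} (hΨ : Measurable Ψ) {M : ℝ}
    (hM : ∀ z, |Ψ z| ≤ M) :
    Integrable (fun z => Ψ z * kp κ x z) (Measure.pi fun _ : Fin k => μ) :=
  (kp_int hκ x).bdd_mul (c := M) hΨ.aestronglyMeasurable (ae_of_all _ hM)

/-- the average of a bounded function -/
theorem kp_bound {k : ℕ} (x : Fin k → G) {Ψ : (Fin k → G) → ℝ} {M : ℝ}
    (hM : ∀ z, |Ψ z| ≤ M) :
    |∫ z, Ψ z * kp κ x z ∂Measure.pi fun _ : Fin k => μ| ≤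
      M * ∫ z, kp κ x z ∂Measure.pi fun _ : Fin k => μ := by
  rw [← integral_const_mul, ← Real.norm_eq_abs]
  refine norm_integral_le_of_norm_le ((kp_int hκ x).const_mul M) (ae_of_all _ fun z => ?_)
  rw [Real.norm_eq_abs, abs_mul, abs_of_nonneg (kp_nonneg hκ x z)]
  exact mul_le_mul_of_nonneg_right (hM z) (kp_nonneg hκ x z)

/-- the smoothing of a bounded measurable function is continuous -/
theorem kp_smooth {k : ℕ} {Ψ : (Fin k → G) → ℝ} (hΨ : Measurable Ψ) {M : ℝ}
    (hM : ∀ z, |Ψ z| ≤ M) :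
    Continuous fun x : Fin k → G => ∫ z, Ψ z * kp κ x z ∂Measure.pi fun _ : Fin k => μ := by
  rw [continuous_iff_continuousAt]
  intro x₀
  obtain ⟨V, hV, hV'⟩ := exists_compact_mem_nhds x₀
  have hS : IsCompact (Set.univ.pi fun _ : Fin k => tsupport κ) :=
    isCompact_univ_pi fun _ => hκ.cs.isCompact
  have hVS := hV.mul hS
  obtain ⟨C, hC⟩ : ∃ C : ℝ, ∀ h, |κ h| ≤ C := by
    obtain ⟨C, hC⟩ := hκ.cs.exists_bound_of_continuous hκ.cont
    exact ⟨C, hC⟩
  have hM0 : 0 ≤ M := (abs_nonneg _).trans (hM x₀)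
  have hC0 : 0 ≤ C := (abs_nonneg _).trans (hC 1)
  refine continuousAt_of_dominated (bound := Set.indicator
    (V * Set.univ.pi fun _ : Fin k => tsupport κ) fun _ => M * C ^ k) ?_ ?_ ?_ ?_
  · exact Eventually.of_forall fun x => (kp_int' hκ x hΨ hM).aestronglyMeasurable
  · filter_upwards [hV'] with x hx
    refine ae_of_all _ fun z => ?_
    by_cases h : kp κ x z = 0
    · rw [h, mul_zero, norm_zero]
      exact Set.indicator_nonneg (fun _ _ => by positivity) _
    · have hz : z ∈ V * Set.univ.pi fun _ : Fin k => tsupport κ :=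
        ⟨x, hx, x⁻¹ * z, kp_supp hκ h, by simp⟩
      rw [Set.indicator_of_mem hz, norm_mul, Real.norm_eq_abs, Real.norm_eq_abs]
      refine mul_le_mul (hM z) ?_ (abs_nonneg _) hM0
      unfold kp
      rw [Finset.abs_prod]
      calc ∏ i, |κ ((x i)⁻¹ * z i)| ≤ ∏ _i : Fin k, C :=
            Finset.prod_le_prod (fun _ _ => abs_nonneg _) fun i _ => hC _
        _ = C ^ k := by simp
  · refine (integrable_indicator_iff hVS.measurableSet).2 ?_
    exact integrableOn_const (hVS.measure_lt_top.ne)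
  · refine ae_of_all _ fun z => ?_
    exact (continuous_const.mul ((kp_cont hκ k).comp
      (continuous_id.prodMk continuous_const))).continuousAt

/-- integrating out one variable -/
theorem kp_face {n : ℕ} (i : Fin (n + 1)) (x : Fin (n + 1) → G) (Ψ : (Fin n → G) → ℝ) :
    (∫ z, Ψ (fun j => z (i.succAbove j)) * kp κ x z ∂Measure.pi fun _ : Fin (n + 1) => μ) =
      ∫ z, Ψ z * kp κ (fun j => x (i.succAbove j)) z ∂Measure.pi fun _ : Fin n => μ := by
  have h1 := (measurePreserving_piFinSuccAbove (fun _ : Fin (n + 1) => μ) i).integral_comp'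
    (fun p : G × (Fin n → G) => κ ((x i)⁻¹ * p.1) *
      (Ψ p.2 * kp κ (fun j => x (i.succAbove j)) p.2))
  have h2 := integral_prod_mul (μ := μ) (ν := Measure.pi fun _ : Fin n => μ)
    (fun a : G => κ ((x i)⁻¹ * a))
    (fun z : Fin n → G => Ψ z * kp κ (fun j => x (i.succAbove j)) z)
  rw [den_one hκ, one_mul] at h2
  rw [h2] at h1
  rw [← h1]
  refine integral_congr_ae (ae_of_all _ fun z => ?_)
  show Ψ (fun j => z (i.succAbove j)) * kp κ x z = κ ((x i)⁻¹ * z i) *
      (Ψ (fun j => z (i.succAbove j)) * kp κ (fun j => x (i.succAbove j))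
        (fun j => z (i.succAbove j)))
  rw [kp_succ i]
  ring

theorem kp_mass {k : ℕ} (x : Fin k → G) :
    ∫ z, kp κ x z ∂Measure.pi (fun _ : Fin k => μ) = 1 := by
  induction k with
  | zero =>
    have h : ∀ z : Fin 0 → G, kp κ x z = 1 := fun z => by simp [kp]
    simp only [h]
    simp [Measure.real]
  | succ k ih =>
    have h := kp_face hκ 0 x fun _ => (1 : ℝ)
    simp only [one_mul] at h
    rw [h, ih]

/-! ### The averaging operator -/

omit hκ in
variable (μ κ) in
/-- the average over a neighbourhood -/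
noncomputable def Tk (φ : G → ℝ) (x : G) : ℝ := ∫ a, φ a * κ (x⁻¹ * a) ∂μ

theorem Tk_eq (φ : G → ℝ) (x : G) : Tk μ κ φ x = ∫ y, φ (x * y) * κ y ∂μ := by
  unfold Tk
  rw [← integral_mul_left_eq_self (fun a => φ a * κ (x⁻¹ * a)) x]
  simp

theorem Tk_equi (g : G) (φ : G → ℝ) (x : G) :
    Tk μ κ (fun y => φ (g * y)) x = Tk μ κ φ (g * x) := by
  rw [Tk_eq hκ, Tk_eq hκ]
  simp only [mul_assoc]

theorem den_int' : Integrable κ μ := by simpa using den_int hκ 1

theorem mk_Tk : Mk G (Tk μ κ) where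
  const := fun c x => by
    unfold Tk
    rw [integral_const_mul, den_one hκ, mul_one]
  add := fun f g M hf hg hfM hgM x => by
    unfold Tk
    rw [← integral_add ((den_int hκ x).bdd_mul hf.measurable.aestronglyMeasurable
      (ae_of_all _ hfM)) ((den_int hκ x).bdd_mul hg.measurable.aestronglyMeasurable
      (ae_of_all _ hgM))]
    simp only [add_mul]
  smul := fun c f M _ _ x => by
    unfold Tk
    rw [← integral_const_mul]
    simp only [mul_assoc]
  bdd := fun f M _ hM x => by
    unfold Tk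
    have h1 : ∫ a, M * κ (x⁻¹ * a) ∂μ = M := by
      rw [integral_const_mul, den_one hκ, mul_one]
    rw [← h1, ← Real.norm_eq_abs]
    refine norm_integral_le_of_norm_le ((den_int hκ x).const_mul M) (ae_of_all _ fun z => ?_)
    rw [Real.norm_eq_abs, abs_mul, abs_of_nonneg (hκ.nonneg _)]
    exact mul_le_mul_of_nonneg_right (hM z) (hκ.nonneg _)
  cont := by
    intro Z _ _ f M hf hM
    simp only [Tk_eq hκ]
    refine continuous_of_dominated (bound := fun y => M * κ y) ?_ ?_
      ((den_int' hκ).const_mul M) ?_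
    · intro p
      refine Measurable.aestronglyMeasurable (Continuous.measurable ?_)
      exact (hf.comp (continuous_const.prodMk (continuous_const.mul continuous_id))).mul hκ.cont
    · intro p
      refine ae_of_all _ fun y => ?_
      rw [norm_mul, Real.norm_eq_abs, Real.norm_eq_abs, abs_of_nonneg (hκ.nonneg _)]
      exact mul_le_mul_of_nonneg_right (hM _ _) (hκ.nonneg _)
    · refine ae_of_all _ fun y => ?_
      exact (hf.comp (continuous_fst.prodMk (continuous_snd.mul continuous_const))).mul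
        continuous_const

/-- the iterated average is the integral over the product -/
theorem tens_Tk {k : ℕ} : ∀ {f : List G → ℝ}, LC f → LB f → ∀ x : Fin k → G,
    tens (Tk μ κ) f (List.ofFn x) =
      ∫ z, f (List.ofFn z) * kp κ x z ∂Measure.pi fun _ : Fin k => μ := by
  induction k with
  | zero =>
    intro f _ _ x
    have h : ∀ z : Fin 0 → G, f (List.ofFn z) * kp κ x z = f [] := fun z => by simp [kp]
    simp only [h]
    simp [tens, Measure.real]
  | succ k ih =>
    intro f hf hb x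
    obtain ⟨M, hM⟩ := hb (k + 1)
    rw [List.ofFn_succ]
    show Tk μ κ (fun y => tens (Tk μ κ) (fun m => f (y :: m)) (List.ofFn fun i => x i.succ)) (x 0)
      = _
    have h0 : (fun y => tens (Tk μ κ) (fun m => f (y :: m)) (List.ofFn fun i => x i.succ)) =
        fun y => ∫ z, f (y :: List.ofFn z) * kp κ (fun i => x i.succ) z
          ∂Measure.pi fun _ : Fin k => μ := by
      funext y
      exact ih (hf.cons y) (hb.cons y) _
    rw [h0]
    unfold Tk
    have h1 := (measurePreserving_piFinSuccAbove (fun _ : Fin (k + 1) => μ) 0).integral_comp'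
      (fun p : G × (Fin k → G) => f (p.1 :: List.ofFn p.2) * (κ ((x 0)⁻¹ * p.1) *
        kp κ (fun j => x j.succ) p.2))
    have hc : Continuous fun p : G × (Fin k → G) => f (p.1 :: List.ofFn p.2) := by
      have h2 := (hf (k + 1)).comp (Continuous.finCons (continuous_fst (X := G) (Y := Fin k → G))
        continuous_snd)
      refine h2.congr fun q => ?_
      simp [List.ofFn_succ]
    have hi : Integrable (fun p : G × (Fin k → G) => f (p.1 :: List.ofFn p.2) *
        (κ ((x 0)⁻¹ * p.1) * kp κ (fun j => x j.succ) p.2))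
        (μ.prod (Measure.pi fun _ : Fin k => μ)) := by
      refine ((den_int hκ (x 0)).mul_prod (kp_int hκ fun j => x j.succ)).bdd_mul
        (c := M) hc.measurable.aestronglyMeasurable (ae_of_all _ fun p => ?_)
      exact hM _ (by simp)
    have h3 := integral_prod _ hi
    rw [h3] at h1
    have h4 : (∫ z, f (List.ofFn z) * kp κ x z ∂Measure.pi fun _ : Fin (k + 1) => μ) =
        ∫ a, ∫ z, f (a :: List.ofFn z) * (κ ((x 0)⁻¹ * a) * kp κ (fun j => x j.succ) z)
          ∂(Measure.pi fun _ : Fin k => μ) ∂μ := by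
      rw [← h1]
      refine integral_congr_ae (ae_of_all _ fun z => ?_)
      show f (List.ofFn z) * kp κ x z = f (z 0 :: List.ofFn fun j => z ((0 : Fin (k + 1)).succAbove j)) *
        (κ ((x 0)⁻¹ * z 0) * kp κ (fun j => x j.succ) fun j => z ((0 : Fin (k + 1)).succAbove j))
      rw [kp_succ 0, List.ofFn_succ]
      simp only [Fin.zero_succAbove]
    rw [h4]
    refine integral_congr_ae (ae_of_all _ fun a => ?_)
    show (∫ z, f (a :: List.ofFn z) * kp κ (fun i => x i.succ) z
          ∂Measure.pi fun _ : Fin k => μ) * κ ((x 0)⁻¹ * a) = _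
    rw [← integral_mul_const]
    refine integral_congr_ae (ae_of_all _ fun z => ?_)
    ring

/-! ### The non generic lists are a null set -/

omit hκ [LocallyCompactSpace G] [MeasurableSpace G] [BorelSpace G] in
/-- the elements of the group with the end of `1` are not a neighbourhood of `1` -/
theorem not_nhds (Γ : R1 G) : {g : G | Γ.gam g = 0} ∉ 𝓝 (1 : G) := by
  intro hn
  -- a subgroup
  let P : Subgroup G :=
    { carrier := {g | Γ.gam g = 0}
      mul_mem' := by
        intro a b ha hb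
        obtain ⟨s, hs, -, -⟩ := Γ.end_scale b hb
        show Γ.gam (a * b) = 0
        rw [hs a, show Γ.gam a = 0 from ha, mul_zero]
      one_mem' := Γ.gam_one
      inv_mem' := by
        intro a ha
        show Γ.gam a⁻¹ = 0
        rw [Γ.gam_inv]
        exact ha }
  have hP : IsOpen (P : Set G) := P.isOpen_of_mem_nhds hn
  obtain ⟨u, hu, hu0⟩ := Γ.exists_U
  -- the elements of the contracted sequence
  let un : ℕ → G := fun n => Γ.dg (-(n : ℝ)) * u * Γ.dg n
  have hE : ∀ n : ℕ, Γ.E (un n) ≤ Real.exp (-(n : ℝ)) * Γ.E u := fun n =>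
    Γ.E_dg u hu n n.cast_nonneg
  have hE0 : ∀ g, 0 ≤ Γ.E g := fun g => (by
    have h := Γ.rho_mul g g⁻¹
    rw [mul_inv_cancel, Γ.rho_one, Γ.rho_inv] at h
    linarith : 0 ≤ Γ.rho g).trans (Γ.rho_le_E g)
  have hlim : Tendsto (fun n : ℕ => Γ.E (un n)) atTop (𝓝 0) := by
    have h1 : Tendsto (fun n : ℕ => Real.exp (-(n : ℝ)) * Γ.E u) atTop (𝓝 0) := by
      have h2 := (Real.tendsto_exp_neg_atTop_nhds_zero.comp
        tendsto_natCast_atTop_atTop).mul_const (Γ.E u)
      simpa using h2
    exact squeeze_zero (fun n => hE0 _) hE h1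
  -- a cluster point
  have hK : IsCompact {g : G | Γ.rho g ≤ Γ.E u} := Γ.proper _
  have hmem : ∀ n, un n ∈ {g : G | Γ.rho g ≤ Γ.E u} := by
    intro n
    show Γ.rho (un n) ≤ Γ.E u
    refine (Γ.rho_le_E _).trans ((hE n).trans ?_)
    have h1 : Real.exp (-(n : ℝ)) ≤ 1 := Real.exp_le_one_iff.2 (by simp)
    exact mul_le_of_le_one_left (hE0 u) h1
  obtain ⟨w, -, φ, hφ, hw⟩ := hK.tendsto_subseq hmem
  have hEw : Γ.E w = 0 := by
    have h1 : Tendsto (fun n => Γ.E (un (φ n))) atTop (𝓝 (Γ.E w)) :=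
      (Γ.E_cont.tendsto w).comp hw
    exact tendsto_nhds_unique h1 (hlim.comp hφ.tendsto_atTop)
  have hgw : Γ.gam (Γ.flip⁻¹ * w * Γ.flip) = 0 := by
    have h1 := Γ.E_pair Γ.flip w Γ.flip
    rw [hEw, zero_mul, zero_mul, inv_mul_cancel, Γ.gam_one, sub_zero] at h1
    exact abs_eq_zero.1 (le_antisymm h1 (abs_nonneg _))
  have hlim2 : Tendsto (fun n => Γ.flip⁻¹ * un (φ n) * Γ.flip) atTop
      (𝓝 (Γ.flip⁻¹ * w * Γ.flip)) := (hw.const_mul _).mul_const _
  have hev := hlim2.eventually (hP.mem_nhds hgw)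
  obtain ⟨n, hn⟩ := hev.exists
  -- the value
  set t : ℝ := ((φ n : ℕ) : ℝ) with ht
  have hdg : ∀ s : ℝ, Γ.flip⁻¹ * Γ.dg s * Γ.flip = Γ.dg (-s) := by
    intro s
    have h1 := Γ.flip_dg (-s)
    rw [neg_neg] at h1
    rw [mul_assoc, ← h1, inv_mul_cancel_left]
  have h1 : Γ.flip⁻¹ * un (φ n) * Γ.flip =
      Γ.dg t * (Γ.flip⁻¹ * u * Γ.flip) * Γ.dg (-t) := by
    have e1 := hdg t
    have e2 := hdg (-t)
    rw [neg_neg] at e2
    have e3 : Γ.flip⁻¹ * un (φ n) * Γ.flip = (Γ.flip⁻¹ * Γ.dg (-t) * Γ.flip) *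
        (Γ.flip⁻¹ * u * Γ.flip) * (Γ.flip⁻¹ * Γ.dg t * Γ.flip) := by
      show Γ.flip⁻¹ * (Γ.dg (-t) * u * Γ.dg t) * Γ.flip = _
      group
    rw [e3, e1, e2]
  have h2 : Γ.gam (Γ.flip⁻¹ * un (φ n) * Γ.flip) = 0 := hn
  have hneg : ∀ s : ℝ, (Γ.dg s)⁻¹ = Γ.dg (-s) := by
    intro s
    have h3 := Γ.dg_add s (-s)
    have h4 := Γ.dg_add 0 0
    rw [add_zero] at h4
    rw [add_neg_cancel, left_eq_mul.1 h4] at h3
    exact inv_eq_of_mul_eq_one_right h3.symm
  rw [h1, Γ.gam_dg, ← Γ.gam_inv, mul_inv_rev, hneg, Γ.gam_dg, Γ.gam_inv] at h2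
  rcases mul_eq_zero.1 h2 with h3 | h3
  · exact (Real.exp_pos _).ne' h3
  · rcases mul_eq_zero.1 h3 with h4 | h4
    · exact (Real.exp_pos _).ne' h4
    · exact hu0 h4

omit hκ in
variable (μ) in
/-- the elements with the end of `1` are a null set -/
theorem null_end (Γ : R1 G) : μ {g : G | Γ.gam g = 0} = 0 := by
  by_contra h
  have hc : IsClosed {g : G | Γ.gam g = 0} := isClosed_eq Γ.gam_cont continuous_const
  have h1 := Measure.div_mem_nhds_one_of_haar_pos μ _ hc.measurableSet (pos_iff_ne_zero.2 h)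
  refine not_nhds Γ (mem_of_superset h1 ?_)
  rintro _ ⟨a, ha, b, hb, rfl⟩
  have hb' : Γ.gam b⁻¹ = 0 := by rw [Γ.gam_inv]; exact hb
  obtain ⟨s, hs, -, -⟩ := Γ.end_scale b⁻¹ hb'
  show Γ.gam (a / b) = 0
  rw [div_eq_mul_inv, hs a, show Γ.gam a = 0 from ha, mul_zero]

omit hκ in
theorem null_pair (Γ : R1 G) {n : ℕ} (j : Fin (n + 1)) (i : Fin n) :
    ∀ᵐ z ∂(Measure.pi fun _ : Fin (n + 1) => μ), Γ.gam ((z (j.succAbove i))⁻¹ * z j) ≠ 0 := by
  have h1 := measurePreserving_piFinSuccAbove (fun _ : Fin (n + 1) => μ) j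
  have hm : MeasurableSet {p : G × (Fin n → G) | Γ.gam ((p.2 i)⁻¹ * p.1) ≠ 0} := by
    refine IsOpen.measurableSet (isOpen_ne_fun ?_ continuous_const)
    exact Γ.gam_cont.comp ((((continuous_apply i).comp continuous_snd).inv).mul continuous_fst)
  have h2 : ∀ᵐ p ∂(μ.prod (Measure.pi fun _ : Fin n => μ)), Γ.gam ((p.2 i)⁻¹ * p.1) ≠ 0 := by
    rw [Measure.ae_prod_iff_ae_ae hm, Measure.ae_ae_comm hm]
    refine ae_of_all _ fun z => ?_
    rw [ae_iff]
    simp only [not_not]
    have h3 := null_end μ Γ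
    have h4 : {a : G | Γ.gam ((z i)⁻¹ * a) = 0} = (fun a => (z i)⁻¹ * a) ⁻¹' {g | Γ.gam g = 0} :=
      rfl
    rw [h4, measure_preimage_mul, h3]
  exact h1.quasiMeasurePreserving.ae h2

omit hκ in
/-- almost all lists are generic -/
theorem ae_generic (Γ : R1 G) (n : ℕ) :
    ∀ᵐ z ∂(Measure.pi fun _ : Fin n => μ), Γ.Generic (List.ofFn z) := by
  unfold R1.Generic
  simp only [List.pairwise_ofFn]
  rw [ae_all_iff]
  intro i
  rw [ae_all_iff]
  intro j
  cases n with
  | zero => exact i.elim0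
  | succ n =>
    by_cases hij : i < j
    · obtain ⟨i', hi'⟩ := Fin.exists_succAbove_eq hij.ne
      have h := null_pair (μ := μ) Γ j i'
      rw [hi'] at h
      filter_upwards [h] with z hz _
      exact hz
    · exact ae_of_all _ fun z h => absurd h hij

/-! ### Densities -/

omit [LocallyCompactSpace G] [T2Space G] [SecondCountableTopology G] hκ [MeasurableSpace G]
  [BorelSpace G] in
theorem locComp (Γ : R1 G) : LocallyCompactSpace G := by
  have h : IsCompact {g : G | Γ.rho g ≤ 1} := Γ.proper 1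
  have hn : {g : G | Γ.rho g ≤ 1} ∈ 𝓝 (1 : G) := by
    have h1 : Γ.rho ⁻¹' (Set.Iio 1) ∈ 𝓝 (1 : G) := by
      refine (isOpen_Iio.preimage Γ.rho_cont).mem_nhds ?_
      show Γ.rho 1 < 1
      rw [Γ.rho_one]
      exact one_pos
    refine mem_of_superset h1 fun g hg => ?_
    have hg' : Γ.rho g < 1 := hg
    exact hg'.le
  exact h.locallyCompactSpace_of_mem_nhds_of_group hn

omit hκ in
variable (μ) in
theorem exists_den (Γ : R1 G) : ∃ κ : G → ℝ, IsDen μ κ := by
  have hc : Continuous fun h : G => max 0 (1 - Γ.rho h) :=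
    continuous_const.max (continuous_const.sub Γ.rho_cont)
  have hs : HasCompactSupport fun h : G => max 0 (1 - Γ.rho h) := by
    refine HasCompactSupport.intro (Γ.proper 1) fun h hh => ?_
    have h1 : 1 < Γ.rho h := not_le.1 hh
    exact max_eq_left (by linarith)
  have hp : 0 < ∫ h, max 0 (1 - Γ.rho h) ∂μ := by
    refine Continuous.integral_pos_of_hasCompactSupport_nonneg_nonzero (x := (1 : G)) hc hs
      (fun h => le_max_left _ _) ?_
    rw [Γ.rho_one]
    norm_num
  refine ⟨fun h => max 0 (1 - Γ.rho h) / ∫ h, max 0 (1 - Γ.rho h) ∂μ, ⟨fun h => ?_, ?_, ?_, ?_⟩⟩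
  · exact div_nonneg (le_max_left _ _) hp.le
  · exact hc.div_const _
  · refine hs.mono' ?_
    intro h hh
    refine subset_tsupport _ ?_
    intro h0
    apply hh
    have h0' : max 0 (1 - Γ.rho h) = 0 := h0
    show max 0 (1 - Γ.rho h) / _ = 0
    rw [h0', zero_div]
  · rw [integral_div, div_self hp.ne']

/-! ### Assembly -/

omit hκ [TopologicalSpace G] [IsTopologicalGroup G] [T2Space G] [SecondCountableTopology G]
  [LocallyCompactSpace G] [MeasurableSpace G] [BorelSpace G] in
theorem dl_ofFn' {n : ℕ} (b : List G → ℝ) (x : Fin (n + 1) → G) :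
    dl b (List.ofFn x) =
      ∑ i : Fin (n + 1), (-1 : ℝ) ^ (i : ℕ) * b (List.ofFn fun j => x (Fin.succAbove i j)) := by
  rw [Helper17.BC.dl_eq, Helper17.BR.dl_ofFn]

omit hκ [IsTopologicalGroup G] [T2Space G] [SecondCountableTopology G]
  [LocallyCompactSpace G] [MeasurableSpace G] [BorelSpace G] in
theorem generic_face {Γ : R1 G} {n : ℕ} {z : Fin (n + 1) → G} (h : Γ.Generic (List.ofFn z))
    (i : Fin (n + 1)) : Γ.Generic (List.ofFn fun j => z (i.succAbove j)) := by
  unfold R1.Generic at h ⊢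
  rw [List.pairwise_ofFn] at h ⊢
  intro a b hab
  exact h (Fin.strictMono_succAbove i hab)

omit [LocallyCompactSpace G] hκ in
open Classical in
/-- Block REG: from the generic primitive to a continuous one. -/
theorem regular (Γ : R1 G) {N : ℕ} (f : List G → ℝ) (hf : LC f) (hfb : LB f)
    (hfi : ∀ (g : G) l, f (l.map (g * ·)) = f l) (hfd : ∀ l, dl f l = 0)
    (ψ : List G → ℝ) (M : ℝ)
    (hm : Measurable fun x : Fin (N + 1) → G =>
      if Γ.Generic (List.ofFn x) then ψ (List.ofFn x) else 0)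
    (hM : ∀ Y, Γ.Generic Y → Y.length = N + 1 → |ψ Y| ≤ M)
    (hi : ∀ (g : G) Y, ψ (Y.map (g * ·)) = ψ Y)
    (hd : ∀ W, Γ.Generic W → W.length = N + 2 → dl ψ W = f W) :
    ∃ u : List G → ℝ, LC u ∧ LB u ∧ (∀ (g : G) l, u (l.map (g * ·)) = u l) ∧
      ∀ l : List G, l.length = N + 2 → dl u l = f l := by
  have hloc := locComp Γ
  obtain ⟨κ, hκ⟩ := exists_den Measure.haar Γ
  set μ : Measure G := Measure.haar with hμ
  have hT := mk_Tk hκ
  let Ψ : (Fin (N + 1) → G) → ℝ := fun x =>
    if Γ.Generic (List.ofFn x) then ψ (List.ofFn x) else 0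
  have hΨm : Measurable Ψ := hm
  have hΨM : ∀ x, |Ψ x| ≤ |M| := by
    intro x
    show |if Γ.Generic (List.ofFn x) then ψ (List.ofFn x) else 0| ≤ |M|
    split_ifs with h
    · exact (hM _ h (by simp)).trans (le_abs_self M)
    · rw [abs_zero]
      exact abs_nonneg M
  have hgen : ∀ (g : G) (l : List G), Γ.Generic (l.map (g * ·)) ↔ Γ.Generic l := by
    intro g l
    unfold R1.Generic R1.SameEnd
    rw [List.pairwise_map]
    simp only [mul_inv_rev, mul_assoc, inv_mul_cancel_left]
  have hΨi : ∀ (g : G) (x : Fin (N + 1) → G), Ψ (fun j => g * x j) = Ψ x := by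
    intro g x
    have e : List.ofFn (fun j => g * x j) = (List.ofFn x).map (g * ·) := by
      rw [List.map_ofFn]
      rfl
    show (if Γ.Generic (List.ofFn fun j => g * x j) then ψ (List.ofFn fun j => g * x j) else 0) = _
    rw [e, hi]
    exact if_congr (hgen g _) rfl rfl
  let F : (Fin (N + 1) → G) → ℝ := fun x =>
    ∫ z, Ψ z * kp κ x z ∂Measure.pi fun _ : Fin (N + 1) => μ
  have hFc : Continuous F := kp_smooth hκ hΨm hΨM
  have hFi : ∀ (g : G) (x : Fin (N + 1) → G), F (fun j => g * x j) = F x := by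
    intro g x
    have h1 := integral_mul_left_eq_self (μ := Measure.pi fun _ : Fin (N + 1) => μ)
      (fun z : Fin (N + 1) → G => Ψ z * kp κ (fun j => g * x j) z) (fun _ => g)
    show (∫ z, Ψ z * kp κ (fun j => g * x j) z ∂Measure.pi fun _ : Fin (N + 1) => μ) = _
    rw [← h1]
    refine integral_congr_ae (ae_of_all _ fun z => ?_)
    show Ψ (fun j => g * z j) * kp κ (fun j => g * x j) (fun j => g * z j) = Ψ z * kp κ x z
    rw [hΨi]
    unfold kp
    simp only [mul_inv_rev, mul_assoc, inv_mul_cancel_left]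
  have hFb : ∀ x, |F x| ≤ |M| := by
    intro x
    have h1 := kp_bound hκ x hΨM
    rw [kp_mass hκ, mul_one] at h1
    exact h1
  have hpc := hf.pri hT hfb
  have hpi : ∀ (g : G) (l : List G), pri (Tk μ κ) f (l.map (g * ·)) = pri (Tk μ κ) f l := by
    intro g l
    rw [← pri_map hT (g * ·) (fun φ _ _ _ x => Tk_equi hκ g φ x) l f hf hfb]
    congr 1
    funext m
    exact hfi g m
  have hpb : ∃ B : ℝ, ∀ l : List G, l.length = N + 1 → |pri (Tk μ κ) f l| ≤ B := by
    obtain ⟨B, hB⟩ := hfb (N + 2)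
    have h1 := (Helper87.BCR.pri_joint hT (N + 1) Unit (fun _ => f) hf.JC B
      (fun _ l hl => hB l hl)).2
    exact ⟨_, fun l hl => h1 () l hl⟩
  let u0 : (Fin (N + 1) → G) → ℝ := fun x => F x - pri (Tk μ κ) f (List.ofFn x)
  have hu0 : Continuous u0 := hFc.sub (hpc (N + 1))
  let u : List G → ℝ := Helper17.BR.ofF (N + 1) u0
  have huFn : ∀ x : Fin (N + 1) → G, u (List.ofFn x) = u0 x := Helper17.BR.ofF_ofFn u0
  refine ⟨u, ?_, ?_, ?_, ?_⟩
  · intro k
    by_cases hk : k = N + 1
    · subst hk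
      exact hu0.congr fun x => (huFn x).symm
    · have h1 : (fun v : Fin k → G => u (List.ofFn v)) = fun _ => 0 := by
        funext v
        exact dif_neg (by rw [List.length_ofFn]; exact hk)
      rw [h1]
      exact continuous_const
  · intro k
    obtain ⟨B, hB⟩ := hpb
    refine ⟨|M| + |B|, fun l _ => ?_⟩
    refine Helper17.BR.ofF_bound (by positivity) (fun x => ?_) l
    exact (abs_sub _ _).trans (add_le_add (hFb x) ((hB _ (by simp)).trans (le_abs_self B)))
  · intro g l
    refine Helper17.BR.ofF_map u0 (g * ·) (fun x => ?_) l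
    show F (fun j => g * x j) - pri (Tk μ κ) f (List.ofFn fun j => g * x j) = _
    have e : List.ofFn (fun j => g * x j) = (List.ofFn x).map (g * ·) := by
      rw [List.map_ofFn]
      rfl
    rw [hFi, e, hpi]
  · intro l hl
    obtain ⟨x, rfl⟩ := Helper17.BR.eq_ofFn l hl
    rw [dl_ofFn']
    simp only [huFn]
    have h1 : ∀ i : Fin (N + 2), F (fun j => x (i.succAbove j)) =
        ∫ z, Ψ (fun j => z (i.succAbove j)) * kp κ x z ∂Measure.pi fun _ : Fin (N + 2) => μ :=
      fun i => (kp_face hκ i x Ψ).symm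
    have hint : ∀ i : Fin (N + 2), Integrable
        (fun z : Fin (N + 2) → G => (-1 : ℝ) ^ (i : ℕ) * (Ψ (fun j => z (i.succAbove j)) *
          kp κ x z)) (Measure.pi fun _ : Fin (N + 2) => μ) := by
      intro i
      refine Integrable.const_mul (kp_int' hκ x (M := |M|) ?_ ?_) _
      · exact hΨm.comp (measurable_pi_lambda _ fun j => measurable_pi_apply _)
      · exact fun z => hΨM _
    have h2 : ∑ i : Fin (N + 2), (-1 : ℝ) ^ (i : ℕ) * F (fun j => x (i.succAbove j)) =
        ∫ z, f (List.ofFn z) * kp κ x z ∂Measure.pi fun _ : Fin (N + 2) => μ := by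
      simp only [h1]
      simp only [← integral_const_mul]
      rw [← integral_finsetSum _ fun i _ => hint i]
      refine integral_congr_ae ?_
      filter_upwards [ae_generic (μ := μ) Γ (N + 2)] with z hz
      have h3 := hd (List.ofFn z) hz (by simp)
      rw [dl_ofFn'] at h3
      rw [← h3, Finset.sum_mul]
      refine Finset.sum_congr rfl fun i _ => ?_
      have h4 : Ψ (fun j => z (i.succAbove j)) = ψ (List.ofFn fun j => z (i.succAbove j)) :=
        if_pos (generic_face hz i)
      rw [h4, mul_assoc]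
    have h5 : ∑ i : Fin (N + 2), (-1 : ℝ) ^ (i : ℕ) *
        pri (Tk μ κ) f (List.ofFn fun j => x (i.succAbove j)) =
        tens (Tk μ κ) f (List.ofFn x) - f (List.ofFn x) := by
      rw [← dl_ofFn']
      exact prism_of_dl_eq_zero hT hf hfb hfd _
    rw [tens_Tk hκ hf hfb] at h5
    show ∑ i : Fin (N + 2), (-1 : ℝ) ^ (i : ℕ) * (F (fun j => x (i.succAbove j)) -
      pri (Tk μ κ) f (List.ofFn fun j => x (i.succAbove j))) = f (List.ofFn x)
    simp only [mul_sub]
    rw [Finset.sum_sub_distrib, h2, h5]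
    ring

end Pool.Agent.Helper34.BR
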